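import Mathlib
import Pool.Agent.Lib.MP_30d2b9_nt.Ladder

/-!
If the ladder is balanced, then quotients of consecutive zeroes tend to one.
-/

namespace Pool.Agent.Results.MP_30d2b9_nt.BalanceZeros

open Filter Topology Finset
open Pool.Agent.Lib.MP_30d2b9_nt

theorem cpos_add (S : Set ℕ) {n m : ℕ} (h : n ≤ m) :
    cpos S m = cpos S n + ((Ioc n m).filter fun k => 0 < lad S k).card := by
  classical
  unfold cpos
  rw [← card_union_of_disjoint, ← filter_union]
  · congr 2
    ext x
    simp only [mem_union, mem_Icc, mem_Ioc]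
    omega
  · refine disjoint_filter_filter ?_
    rw [disjoint_left]
    intro x h1 h2
    rw [mem_Icc] at h1
    rw [mem_Ioc] at h2
    omega

theorem cneg_add (S : Set ℕ) {n m : ℕ} (h : n ≤ m) :
    cneg S m = cneg S n + ((Ioc n m).filter fun k => lad S k < 0).card := by
  classical
  unfold cneg
  rw [← card_union_of_disjoint, ← filter_union]
  · congr 2
    ext x
    simp only [mem_union, mem_Icc, mem_Ioc]
    omega
  · refine disjoint_filter_filter ?_
    rw [disjoint_left]
    intro x h1 h2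
    rw [mem_Icc] at h1
    rw [mem_Ioc] at h2
    omega

theorem cneg_le (S : Set ℕ) (n : ℕ) : cneg S n ≤ n := by
  unfold cneg
  exact (card_filter_le _ _).trans (by simp)

/-- Constant sign between zeroes. -/
theorem sign_const {S : Set ℕ} {n m : ℕ} (h0 : ∀ k, n ≤ k → k ≤ m → lad S k ≠ 0) :
    (∀ k, n ≤ k → k ≤ m → 0 < lad S k) ∨ ∀ k, n ≤ k → k ≤ m → lad S k < 0 := by
  by_cases hnm : n ≤ m
  · rcases lt_or_gt_of_ne (h0 n le_rfl hnm) with h | h
    · right
      intro k hk
      induction k, hk using Nat.le_induction with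
      | base => exact fun _ => h
      | succ k hk ih =>
        intro h1
        have h2 := ih (by omega)
        have h3 := h0 (k + 1) (by omega) h1
        rcases step_or S k with h4 | h4 | h4 <;> omega
    · left
      intro k hk
      induction k, hk using Nat.le_induction with
      | base => exact fun _ => h
      | succ k hk ih =>
        intro h1
        have h2 := ih (by omega)
        have h3 := h0 (k + 1) (by omega) h1
        rcases step_or S k with h4 | h4 | h4 <;> omega
  · left
    intro k h1 h2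
    omega

/-- The signed count between `n` and `m`, when there is no zero. -/
theorem diff_abs {S : Set ℕ} {n m : ℕ} (hnm : n ≤ m)
    (h0 : ∀ k, n ≤ k → k ≤ m → lad S k ≠ 0) :
    |((cpos S m : ℝ) - cneg S m) - ((cpos S n : ℝ) - cneg S n)| = (m : ℝ) - n := by
  classical
  rw [cpos_add S hnm, cneg_add S hnm]
  push_cast
  have hcard : ((m - n : ℕ) : ℝ) = (m : ℝ) - n := Nat.cast_sub hnm
  rcases sign_const h0 with h | h
  · have h1 : ((Ioc n m).filter fun k => 0 < lad S k) = Ioc n m :=
      filter_true_of_mem fun k hk => h k (by rw [mem_Ioc] at hk; omega)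
        (by rw [mem_Ioc] at hk; omega)
    have h2 : ((Ioc n m).filter fun k => lad S k < 0) = ∅ :=
      filter_false_of_mem fun k hk => not_lt.2 (h k (by rw [mem_Ioc] at hk; omega)
        (by rw [mem_Ioc] at hk; omega)).le
    rw [h1, h2, Nat.card_Ioc, card_empty, hcard]
    have h3 : (cpos S n : ℝ) + ((m : ℝ) - n) - (cneg S n + (0 : ℕ)) -
        ((cpos S n : ℝ) - cneg S n) = (m : ℝ) - n := by
      push_cast
      ring
    rw [h3, abs_of_nonneg]
    rw [← hcard]
    exact Nat.cast_nonneg _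
  · have h1 : ((Ioc n m).filter fun k => lad S k < 0) = Ioc n m :=
      filter_true_of_mem fun k hk => h k (by rw [mem_Ioc] at hk; omega)
        (by rw [mem_Ioc] at hk; omega)
    have h2 : ((Ioc n m).filter fun k => 0 < lad S k) = ∅ :=
      filter_false_of_mem fun k hk => not_lt.2 (h k (by rw [mem_Ioc] at hk; omega)
        (by rw [mem_Ioc] at hk; omega)).le
    rw [h1, h2, Nat.card_Ioc, card_empty, hcard]
    have h3 : (cpos S n : ℝ) + (0 : ℕ) - (cneg S n + ((m : ℝ) - n)) -
        ((cpos S n : ℝ) - cneg S n) = -((m : ℝ) - n) := by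
      push_cast
      ring
    rw [h3, abs_neg, abs_of_nonneg]
    rw [← hcard]
    exact Nat.cast_nonneg _

/-- If the ladder of `S` is balanced, then it has a zero in `[n, c n]` for every `c > 1` and all
large `n`. -/
theorem result (S : Set ℕ)
    (h : Tendsto (fun n => (cpos S n : ℝ) / cneg S n) atTop (𝓝 1)) (c : ℝ) (hc : 1 < c) :
    ∀ᶠ n : ℕ in atTop, ∃ k : ℕ, n ≤ k ∧ (k : ℝ) ≤ c * n ∧ lad S k = 0 := by
  classical
  obtain ⟨δ, hδ⟩ : ∃ δ, δ = (c - 1) / (4 * (c + 1)) := ⟨_, rfl⟩
  have hδ0 : 0 < δ := by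
    rw [hδ]
    have : 0 < c - 1 := by linarith
    positivity
  have hδc : δ * (4 * (c + 1)) = c - 1 := by
    rw [hδ, div_mul_cancel₀]
    have : 0 < c + 1 := by linarith
    positivity
  -- the signed count is small
  have hsmall : ∀ᶠ n : ℕ in atTop, |(cpos S n : ℝ) - cneg S n| ≤ δ * n := by
    have h1 := (Metric.tendsto_nhds.1 h) (min δ (1 / 2)) (lt_min hδ0 (by norm_num))
    filter_upwards [h1] with n hn
    rw [Real.dist_eq] at hn
    have h2 : (0 : ℝ) < cneg S n := by
      rcases (Nat.cast_nonneg (α := ℝ) (cneg S n)).eq_or_lt with h3 | h3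
      · rw [← h3, div_zero] at hn
        have := hn.trans_le (min_le_right _ _)
        norm_num at this
      · exact h3
    have h3 : (cpos S n : ℝ) - cneg S n = ((cpos S n : ℝ) / cneg S n - 1) * cneg S n := by
      field_simp
    have h4 : (cneg S n : ℝ) ≤ n := by exact_mod_cast cneg_le S n
    rw [h3, abs_mul, abs_of_pos h2]
    calc |(cpos S n : ℝ) / cneg S n - 1| * cneg S n ≤ δ * cneg S n :=
          mul_le_mul_of_nonneg_right (hn.le.trans (min_le_left _ _)) h2.le
      _ ≤ δ * n := mul_le_mul_of_nonneg_left h4 hδ0.le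
  obtain ⟨n₀, hn₀⟩ := eventually_atTop.1 hsmall
  obtain ⟨n₁, hn₁⟩ := exists_nat_ge (4 / (c - 1))
  refine eventually_atTop.2 ⟨max n₀ n₁, fun n hn => ?_⟩
  have hn0 : n₀ ≤ n := (le_max_left _ _).trans hn
  have hn1 : n₁ ≤ n := (le_max_right _ _).trans hn
  by_contra hcon
  push Not at hcon
  obtain ⟨m, hm⟩ : ∃ m, m = ⌊c * n⌋₊ := ⟨_, rfl⟩
  have hcn : 0 ≤ c * n := by positivity
  have hm1 : (m : ℝ) ≤ c * n := by
    rw [hm]
    exact Nat.floor_le hcn
  have hm2 : c * n < m + 1 := by
    rw [hm]
    exact Nat.lt_floor_add_one _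
  have hn2 : (4 : ℝ) ≤ (c - 1) * n := by
    have h1 : (n₁ : ℝ) ≤ n := by exact_mod_cast hn1
    rw [div_le_iff₀ (by linarith)] at hn₁
    nlinarith
  have hnm : n ≤ m := by
    have h1 : (n : ℝ) < m := by nlinarith
    exact_mod_cast h1.le
  have h1 := diff_abs hnm fun k h1 h2 => hcon k h1 ((Nat.cast_le.2 h2).trans hm1)
  have h2 := hn₀ n hn0
  have h3 := hn₀ m (hn0.trans hnm)
  have h4 := abs_sub ((cpos S m : ℝ) - cneg S m) ((cpos S n : ℝ) - cneg S n)
  rw [h1] at h4
  have h5 : δ * m ≤ δ * (c * n) := mul_le_mul_of_nonneg_left hm1 hδ0.le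
  have h6 : (m : ℝ) - n ≤ δ * (c + 1) * n := by linarith
  have h7 : δ * (c + 1) * n = (c - 1) / 4 * n := by
    have : δ * (c + 1) = (c - 1) / 4 := by linarith
    rw [this]
  nlinarith

end Pool.Agent.Results.MP_30d2b9_nt.BalanceZeros
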