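import Mathlib
import Pool.Agent.Lib.MP_30d2b9_nt.Core
import Pool.Agent.Lib.MP_30d2b9_nt.Ladder

/-!
The ladder which turns at randomly chosen primes.
-/

namespace Pool.Agent.Results.MP_30d2b9_nt.RandomPrimes

open MeasureTheory ProbabilityTheory Filter Topology Finset
open Pool.Agent.Lib.MP_30d2b9_nt

/-- The primes which are kept at `ω`. -/
def kept {Ω : Type} (A : ℕ → Set Ω) (ω : Ω) : Set ℕ := {p | p.Prime ∧ ω ∈ A p}

/-- The primes. -/
noncomputable def q (i : ℕ) : ℕ := Nat.nth Nat.Prime i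

theorem q_mono : StrictMono q := Nat.nth_strictMono Nat.infinite_setOfPred_prime

theorem q_prime (i : ℕ) : (q i).Prime := Nat.prime_nth_prime i

theorem q_count {p : ℕ} (hp : p.Prime) : q (Nat.count Nat.Prime p) = p := Nat.nth_count hp

theorem q_tp : Tp q := by
  refine ⟨q_mono, fun i => ?_, (q_prime 0).one_lt.le⟩
  obtain ⟨p, hp, h1, h2⟩ := Nat.exists_prime_lt_and_le_two_mul (q i) (q_prime i).ne_zero
  refine le_trans ?_ h2
  rw [← q_count hp] at h1 ⊢
  exact q_mono.monotone (q_mono.lt_iff_lt.1 h1)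

section
variable {Ω : Type} [MeasurableSpace Ω] {A : ℕ → Set Ω}

omit [MeasurableSpace Ω] in
theorem cnt_sgp (ω : Ω) {i k : ℕ} (h1 : q i ≤ k) (h2 : k < q (i + 1)) :
    ((-1 : ℝ)) ^ cnt (kept A ω) k = sgp (fun l => A (q l)) (i + 1) ω := by
  classical
  have h3 : kept A ω ∩ Set.Iic k =
      (((range (i + 1)).filter fun l => ω ∈ A (q l)).image q : Finset ℕ) := by
    ext p
    simp only [kept, Set.mem_inter_iff, Set.mem_ofPred_eq, Set.mem_Iic, coe_image, coe_filter,
      mem_range, Set.mem_image]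
    constructor
    · rintro ⟨⟨hp, hpA⟩, hpk⟩
      refine ⟨Nat.count Nat.Prime p, ⟨?_, ?_⟩, q_count hp⟩
      · rw [← q_mono.lt_iff_lt, q_count hp]
        omega
      · rw [q_count hp]
        exact hpA
    · rintro ⟨l, ⟨hl, hlA⟩, rfl⟩
      exact ⟨⟨q_prime l, hlA⟩, (q_mono.monotone (Nat.lt_succ_iff.1 hl)).trans h1⟩
  rw [cnt, h3, Set.ncard_coe_finset, card_image_of_injective _ q_mono.injective, sgp]
  unfold sg
  rw [prod_ite, prod_const, prod_const_one, mul_one]

omit [MeasurableSpace Ω] in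
theorem wk : Wk q (fun l => A (q l)) fun k ω => (lad (kept A ω) k : ℝ) := by
  refine ⟨fun i k ω h1 h2 => ?_, fun k ω => ?_⟩
  · induction k, h1 using Nat.le_induction with
    | base => simp
    | succ k hk ih =>
      have h3 := ih (by omega)
      have h4 : 1 ≤ k := (q_prime i).one_lt.le.trans hk
      beta_reduce at h3 ⊢
      rw [lad_succ _ h4]
      push_cast
      rw [h3, cnt_sgp ω hk (by omega)]
      ring
  · have := lad_le (kept A ω) k
    exact_mod_cast this

end

theorem badc_eq {Ω : Type} {y : ℕ → Ω → ℝ} {ω : Ω} {s : ℝ} {f : ℕ → ℤ}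
    (hy : ∀ k, s * y k ω = f k) (n : ℕ) : badc y s 0 n ω = bad f n := by
  classical
  unfold badc bad
  rw [range_eq_Ico]
  congr 1
  refine filter_congr fun k _ => ?_
  rw [hy]
  exact_mod_cast Iff.rfl

/-- The ladder which turns at randomly chosen primes has infinitely many zeroes and is not
balanced, almost surely. -/
theorem result : ∃ e : ℕ → ℝ, (∀ p, 0 < e p) ∧ Tendsto e atTop (𝓝 0) ∧
    ∀ (Ω : Type) (_ : MeasurableSpace Ω) (P : Measure Ω) (_ : IsProbabilityMeasure P)
      (A : ℕ → Set Ω), (∀ p, MeasurableSet (A p)) → iIndepSet A P →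
      (∀ᶠ p in atTop, p.Prime → e p ≤ P.real (A p) ∧ P.real (A p) ≤ 1 - e p) →
      ∀ᵐ ω ∂P, Tendsto (zeros (kept A ω)) atTop atTop ∧ ∀ ε : ℝ, 0 < ε →
        (∃ᶠ n in atTop, (cneg (kept A ω) n : ℝ) ≤ ε * cpos (kept A ω) n) ∧
          ∃ᶠ n in atTop, (cpos (kept A ω) n : ℝ) ≤ ε * cneg (kept A ω) n := by
  obtain ⟨e, he0, he, H⟩ := main_abs q_tp
  have hcount : Tendsto (Nat.count Nat.Prime) atTop atTop := by
    refine tendsto_atTop_atTop_of_monotone (Nat.count_monotone _) fun b => ⟨q b, ?_⟩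
    rw [q, Nat.count_nth_of_infinite Nat.infinite_setOfPred_prime]
  refine ⟨fun p => e (Nat.count Nat.Prime p), fun p => he0 _, he.comp hcount, ?_⟩
  intro Ω mΩ P iP A hA hind hev
  have X : Md P (fun l => A (q l)) q fun k ω => (lad (kept A ω) k : ℝ) :=
    ⟨wk, fun l => hA _, hind.precomp q_mono.injective⟩
  have hev' : ∀ᶠ l in atTop, e l ≤ P.real (A (q l)) ∧ P.real (A (q l)) ≤ 1 - e l := by
    obtain ⟨p₀, hp₀⟩ := eventually_atTop.1 hev
    refine eventually_atTop.2 ⟨p₀, fun l hl => ?_⟩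
    have h1 := hp₀ (q l) (hl.trans q_mono.le_apply) (q_prime l)
    have h2 : Nat.count Nat.Prime (q l) = l :=
      Nat.count_nth_of_infinite Nat.infinite_setOfPred_prime l
    simp only [h2] at h1
    exact h1
  filter_upwards [H Ω mΩ P iP _ _ X hev' 1 (Or.inl rfl),
    H Ω mΩ P iP _ _ X hev' (-1) (Or.inr rfl)] with ω h1 h2
  have e1 : ∀ n, badc (fun k ω => (lad (kept A ω) k : ℝ)) 1 0 n ω =
      bad (lad (kept A ω)) n := badc_eq fun k => one_mul _
  have e2 : ∀ n, badc (fun k ω => (lad (kept A ω) k : ℝ)) (-1) 0 n ω =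
      bad (fun k => -lad (kept A ω) k) n := badc_eq fun k => by
    push_cast
    ring
  refine unbalanced (fun ε hε => ?_) fun ε hε => ?_
  · have h3 := h1 ε hε
    simp only [e1] at h3
    exact h3
  · have h3 := h2 ε hε
    simp only [e2] at h3
    exact h3

end Pool.Agent.Results.MP_30d2b9_nt.RandomPrimes
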