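import Mathlib
import Pool.Agent.Lib.MP_30d2b9_nt.Greedy

/-!
The ladder of the primes after the removal of a very sparse set of primes.
-/

namespace Pool.Agent.Results.MP_30d2b9_nt.SparseDeletion

open Filter Topology Finset
open Pool.Agent.Lib.MP_30d2b9_nt

/-- Distance from `lad S a` which the ladder has reached before `t`. -/
noncomputable def reach (S : Set ℕ) (a t : ℕ) : ℕ :=
  (Icc a t).sup fun u => (lad S u - lad S a).natAbs

theorem reach_mono (S : Set ℕ) (a : ℕ) : Monotone (reach S a) := fun _ _ h =>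
  sup_mono (Icc_subset_Icc_right h)

theorem le_reach {S : Set ℕ} {a t u : ℕ} (h1 : a ≤ u) (h2 : u ≤ t) :
    |lad S u - lad S a| ≤ reach S a t := by
  have h := le_sup (f := fun u => (lad S u - lad S a).natAbs) (mem_Icc.2 ⟨h1, h2⟩)
  rw [Int.abs_eq_natAbs]
  exact_mod_cast h

theorem reach_att {S : Set ℕ} {a t : ℕ} (h : a ≤ t) :
    ∃ u, a ≤ u ∧ u ≤ t ∧ |lad S u - lad S a| = reach S a t := by
  obtain ⟨u, hu1, hu2⟩ := exists_mem_eq_sup (Icc a t) ⟨a, mem_Icc.2 ⟨le_rfl, h⟩⟩
    fun u => (lad S u - lad S a).natAbs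
  rw [mem_Icc] at hu1
  refine ⟨u, hu1.1, hu1.2, ?_⟩
  rw [Int.abs_eq_natAbs]
  exact_mod_cast hu2.symm

theorem lad_lip (S : Set ℕ) {u v : ℕ} (h : u ≤ v) : |lad S v - lad S u| ≤ v - u := by
  induction v, h using Nat.le_induction with
  | base => simp
  | succ v hv ih =>
    rw [abs_le] at ih ⊢
    push_cast
    rcases step_or S v with h | h | h <;> rw [h] <;> constructor <;> linarith [ih.1, ih.2]

theorem reach_le (S : Set ℕ) (a t : ℕ) : reach S a t ≤ t := by
  unfold reach
  rw [Finset.sup_le_iff]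
  intro u hu
  rw [mem_Icc] at hu
  have h1 := lad_lip S hu.1
  rw [Int.abs_eq_natAbs] at h1
  omega

/-- Scales on which the reach grows moderately. -/
theorem exists_scale' {R : ℕ → ℕ} (hm : Monotone R) (hle : ∀ t, R t ≤ t)
    (hun : ∀ B, ∃ t, B ≤ R t) {q : ℕ} (hq : 1 ≤ q) (t₀ L : ℕ) :
    ∃ t, t₀ ≤ t ∧ L ≤ R t ∧ R (q * t) ≤ 2 * q * R t := by
  by_contra hcon
  push Not at hcon
  obtain ⟨t₁, ht₁⟩ := hun (L + 1)
  obtain ⟨t₂, ht₂⟩ : ∃ t₂, t₂ = max t₀ t₁ := ⟨_, rfl⟩
  have h1 : t₀ ≤ t₂ := ht₂ ▸ le_max_left _ _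
  have h2 : L + 1 ≤ R t₂ := ht₁.trans (hm (ht₂ ▸ le_max_right _ _))
  have key : ∀ j : ℕ, (2 * q) ^ j * R t₂ ≤ R (q ^ j * t₂) := by
    intro j
    induction j with
    | zero => simp
    | succ j ih =>
      have h3 : t₂ ≤ q ^ j * t₂ := Nat.le_mul_of_pos_left _ (pow_pos (by omega) j)
      have h4 := hcon (q ^ j * t₂) (h1.trans h3) (by
        have := hm h3
        omega)
      calc (2 * q) ^ (j + 1) * R t₂ = 2 * q * ((2 * q) ^ j * R t₂) := by ring
        _ ≤ 2 * q * R (q ^ j * t₂) := Nat.mul_le_mul_left _ ih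
        _ ≤ R (q * (q ^ j * t₂)) := h4.le
        _ = R (q ^ (j + 1) * t₂) := by rw [pow_succ', mul_assoc]
  have h3 := (key t₂).trans (hle _)
  rw [mul_pow, mul_assoc, mul_comm (q ^ t₂) t₂, mul_comm (q ^ t₂) (R t₂)] at h3
  have h4 : 2 ^ t₂ * R t₂ * q ^ t₂ ≤ t₂ * q ^ t₂ := by
    rw [mul_assoc]
    exact h3
  have h5 := Nat.le_of_mul_le_mul_right h4 (pow_pos (by omega) t₂)
  have h6 : t₂ < 2 ^ t₂ := Nat.lt_two_pow_self
  have h7 : 2 ^ t₂ * 1 ≤ 2 ^ t₂ * R t₂ := Nat.mul_le_mul_left _ (by omega)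
  omega

/-- The set of the primes which are not in `D`. -/
def rest (D : Set ℕ) : Set ℕ := {p | p.Prime} \ D

/-- Long intervals without turning points. -/
theorem run {S : Set ℕ} {n : ℕ} (hn : 1 ≤ n) (L : ℕ) (h : ∀ k, n < k → k < n + L → k ∉ S) :
    |lad S (n + L) - lad S n| = L := by
  have h1 : ∀ k, n ≤ k → k < n + L → cnt S k = cnt S n := by
    intro k hk
    induction k, hk using Nat.le_induction with
    | base => exact fun _ => rfl
    | succ k hk ih =>
      intro h2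
      rw [cnt_notMem (h (k + 1) (by omega) h2), ih (by omega)]
  have h2 := tele (f := fun k => (k : ℤ)) (g := lad S) (ε := (-1) ^ cnt S n) (c := n)
    (T := n + L) (fun k hk1 hk2 => by
      rw [lad_succ S (by omega), h1 k hk1 hk2]
      push_cast
      ring) (Nat.le_add_right n L) le_rfl
  rw [h2]
  push_cast
  rw [add_sub_cancel_left, abs_mul, abs_pow, abs_neg, abs_one, one_pow, one_mul, Nat.abs_cast]

theorem reach_unbdd (D : Set ℕ) (a B : ℕ) : ∃ t, B ≤ reach (rest D) a t := by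
  obtain ⟨n, hn⟩ : ∃ n, n = (2 * B + a + 2).factorial + 1 := ⟨_, rfl⟩
  have hfac := Nat.self_le_factorial (2 * B + a + 2)
  have hrun : |lad (rest D) (n + 2 * B) - lad (rest D) n| = (2 * B : ℕ) := by
    refine run (by omega) _ fun k hk1 hk2 hk => ?_
    obtain ⟨j, rfl⟩ : ∃ j, k = (2 * B + a + 2).factorial + j := ⟨k - (2 * B + a + 2).factorial,
      by omega⟩
    have h1 : j ∣ (2 * B + a + 2).factorial + j :=
      (Nat.dvd_add_right (Nat.dvd_factorial (by omega) (by omega))).2 dvd_rfl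
    have h2 : Nat.Prime ((2 * B + a + 2).factorial + j) := hk.1
    rcases (Nat.dvd_prime h2).1 h1 with h3 | h3 <;> omega
  refine ⟨n + 2 * B, ?_⟩
  have h1 := le_reach (S := rest D) (show a ≤ n + 2 * B by omega) le_rfl
  have h2 := le_reach (S := rest D) (show a ≤ n by omega) (Nat.le_add_right n (2 * B))
  have h3 : |lad (rest D) (n + 2 * B) - lad (rest D) n| ≤
      |lad (rest D) (n + 2 * B) - lad (rest D) a| + |lad (rest D) n - lad (rest D) a| := by
    have h4 : lad (rest D) (n + 2 * B) - lad (rest D) n =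
        (lad (rest D) (n + 2 * B) - lad (rest D) a) - (lad (rest D) n - lad (rest D) a) := by ring
    rw [h4]
    exact abs_sub _ _
  rw [hrun] at h3
  push_cast at h3
  omega

/-- One block. -/
theorem block {F : ℕ → ℕ} (hF : Tendsto F atTop atTop) (D : Finset ℕ) (N : ℕ)
    (hD : ∀ d ∈ D, d.Prime ∧ d ≤ N) {q : ℕ} (hq : 1 ≤ q) {s : ℤ} (hs : s = 1 ∨ s = -1) :
    ∃ (D' : Finset ℕ) (N' a t : ℕ), D ⊆ D' ∧ N < a ∧ a ≤ t ∧ q * t ≤ N' ∧ N < N' ∧
      (∀ d ∈ D', d.Prime ∧ d ≤ N') ∧ (∀ d ∈ D', d ∉ D → a ≤ d) ∧ (∀ n, a ≤ n → D'.card ≤ F n) ∧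
      ∀ k, t ≤ k → k ≤ q * t → 0 < s * lad (rest D') k := by
  classical
  obtain ⟨n₀, hn₀⟩ := eventually_atTop.1 (tendsto_atTop.1 hF (D.card + (64 * q + 1)))
  obtain ⟨a, ha1, hap⟩ := Nat.exists_infinite_primes (max N n₀ + 1)
  have haN : N < a := lt_of_le_of_lt (le_max_left _ _) (Nat.lt_of_succ_le ha1)
  have han : n₀ ≤ a := (le_max_right _ _).trans (Nat.le_of_succ_le ha1)
  have haS : a ∈ rest D := ⟨hap, fun h => by
    have := (hD a h).2
    omega⟩
  obtain ⟨t, hat, hL, hR⟩ := exists_scale' (reach_mono (rest D) a) (reach_le (rest D) a)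
    (reach_unbdd D a) hq a (2 * a + 20)
  obtain ⟨R, hRR⟩ : ∃ R, R = reach (rest D) a t := ⟨_, rfl⟩
  rw [← hRR] at hL hR
  have htq : t ≤ q * t := Nat.le_mul_of_pos_left _ (by omega)
  obtain ⟨Θ, hΘS, hΘr, hΘc, hΘ⟩ := greedy (rest D) (ρ := ((R / 8 : ℕ) : ℤ))
    (W := 2 * (2 * q * R : ℕ)) (by omega) (q * t) (64 * q) a s hap.one_lt.le (hat.trans htq) haS
    hs (by
      intro u v h1 h2 h3 h4
      have e1 := le_reach (S := rest D) h1 h2
      have e2 := le_reach (S := rest D) h3 h4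
      have e3 : ((reach (rest D) a (q * t) : ℕ) : ℤ) ≤ ((2 * q * R : ℕ) : ℤ) := by
        exact_mod_cast hR
      rw [abs_le] at e1 e2
      linarith [e1.2, e2.1])
  have hrest : rest (D ∪ Θ : Finset ℕ) = rest D \ Θ := by
    ext x
    simp only [rest, coe_union, Set.mem_sdiff, Set.mem_union]
    tauto
  refine ⟨D ∪ Θ, q * t, a, t, subset_union_left, haN, hat, le_rfl, by omega, ?_, ?_, ?_, ?_⟩
  · intro d hd
    rcases mem_union.1 hd with h | h
    · exact ⟨(hD d h).1, by
        have := (hD d h).2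
        omega⟩
    · exact ⟨(hΘS h).1, (hΘr d h).2⟩
  · intro d hd hd'
    rcases mem_union.1 hd with h | h
    · exact absurd h hd'
    · exact (hΘr d h).1
  · intro n hn
    have h1 := hn₀ n (by omega)
    have h2 := card_union_le D Θ
    omega
  · intro k hk1 hk2
    rw [hrest]
    obtain ⟨u, hu1, hu2, hu3⟩ := reach_att (S := rest D) hat
    have h1 := hΘ k (by omega) hk2 u hu1 (by omega)
    rw [hu3, ← hRR] at h1
    have h2 := lad_le (rest D) a
    have h3 : -(a : ℤ) ≤ s * lad (rest D) a := by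
      rw [abs_le] at h2
      rcases hs with rfl | rfl
      · linarith [h2.1]
      · linarith [h2.2]
    have h4 : (a : ℤ) < min ((R : ℤ) - 2 * ((R / 8 : ℕ) : ℤ))
        (((64 * q : ℕ) : ℤ) * ((R / 8 : ℕ) : ℤ) - 2 * ((2 * q * R : ℕ) : ℤ)) := by
      rw [lt_min_iff]
      constructor
      · omega
      · obtain ⟨x, hx⟩ : ∃ x, x = R / 8 := ⟨_, rfl⟩
        have h5 : R ≤ 8 * x + 7 := by omega
        rw [← hx]
        have h6 : (R : ℤ) ≤ 8 * x + 7 := by exact_mod_cast h5
        have h7 : (2 * a + 20 : ℤ) ≤ R := by exact_mod_cast hL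
        have h8 : (1 : ℤ) ≤ q := by exact_mod_cast hq
        have h9 : (a : ℤ) + 10 ≤ 8 * x := by linarith
        push_cast
        nlinarith
    have h5 : s * (lad (rest D \ Θ) k - lad (rest D) a) =
        s * lad (rest D \ Θ) k - s * lad (rest D) a := by ring
    rw [h5] at h1
    linarith

/-- A finite set of primes up to `N`. -/
structure St where
  D : Finset ℕ
  N : ℕ
  h : ∀ d ∈ D, d.Prime ∧ d ≤ N

/-- Arbitrarily sparse sets of primes can be removed from the set of all primes such that the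
ladder of the remaining primes has infinitely many zeroes and is not balanced. -/
theorem result (F : ℕ → ℕ) (hF : Tendsto F atTop atTop) :
    ∃ D : Set ℕ, (∀ p ∈ D, p.Prime) ∧ (∀ n, cnt D n ≤ F n) ∧
      Tendsto (zeros ({p | p.Prime} \ D)) atTop atTop ∧ ∀ ε : ℝ, 0 < ε →
        (∃ᶠ n in atTop, (cneg ({p | p.Prime} \ D) n : ℝ) ≤ ε * cpos ({p | p.Prime} \ D) n) ∧
          ∃ᶠ n in atTop, (cpos ({p | p.Prime} \ D) n : ℝ) ≤ ε * cneg ({p | p.Prime} \ D) n := by
  classical
  have hsg : ∀ r : ℕ, ((-1 : ℤ)) ^ r = 1 ∨ ((-1 : ℤ)) ^ r = -1 := fun r => neg_one_pow_eq_or ℤ r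
  choose D' N' a t hDD haN hat hqt hNN hD' hnew hcard hpos using
    fun (r : ℕ) (x : St) => block hF x.D x.N x.h (q := r + 1) (by omega) (hsg r)
  let st : ℕ → St := fun r => Nat.rec ⟨∅, 0, by simp⟩ (fun r x => ⟨D' r x, N' r x, hD' r x⟩) r
  have hst : ∀ r, st (r + 1) = ⟨D' r (st r), N' r (st r), hD' r (st r)⟩ := fun r => rfl
  have hmonoD : Monotone fun r => (st r).D := monotone_nat_of_le_succ fun r => by
    rw [hst]
    exact hDD r (st r)
  have hmonoN : StrictMono fun r => (st r).N := strictMono_nat_of_lt_succ fun r => by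
    rw [hst]
    exact hNN r (st r)
  have hlate : ∀ r j d, d ∈ (st (r + j)).D → d ≤ (st r).N → d ∈ (st r).D := by
    intro r j d hd hdN
    induction j with
    | zero => exact hd
    | succ j ih =>
      apply ih
      by_contra hcon
      have h1 : d ∈ D' (r + j) (st (r + j)) := hd
      have h2 := hnew (r + j) (st (r + j)) d h1 hcon
      have h3 := haN (r + j) (st (r + j))
      have h4 : (st r).N ≤ (st (r + j)).N := hmonoN.monotone (Nat.le_add_right r j)
      omega
  obtain ⟨D, hD⟩ : ∃ D : Set ℕ, D = {d | ∃ r, d ∈ (st r).D} := ⟨_, rfl⟩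
  have hDr : ∀ r d, d ≤ (st r).N → (d ∈ D ↔ d ∈ (st r).D) := by
    intro r d hd
    rw [hD]
    constructor
    · rintro ⟨j, hj⟩
      rcases le_total r j with h | h
      · obtain ⟨i, rfl⟩ := Nat.exists_eq_add_of_le h
        exact hlate r i d hj hd
      · exact hmonoD h hj
    · exact fun h => ⟨r, h⟩
  have hcnt : ∀ n r, cnt ((st r).D : Set ℕ) n ≤ F n := by
    intro n r
    rw [cnt_finset]
    induction r with
    | zero => simp [st]
    | succ r ih =>
      by_cases hn : a r (st r) ≤ n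
      · exact (card_filter_le _ _).trans (hcard r (st r) n hn)
      · refine le_trans (card_le_card ?_) ih
        intro d hd
        rw [mem_filter] at hd ⊢
        refine ⟨?_, hd.2⟩
        by_contra hcon
        have := hnew r (st r) d hd.1 hcon
        omega
  have hlad : ∀ r k, k ≤ (st (r + 1)).N → lad ({p | p.Prime} \ D) k =
      lad (rest ((st (r + 1)).D : Set ℕ)) k := by
    intro r k hk
    refine lad_congr (N := (st (r + 1)).N) (fun x hx => ?_) (by omega)
    simp only [rest, Set.mem_sdiff, mem_coe]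
    rw [hDr (r + 1) x hx]
  have hbad : ∀ r, (bad (fun k => (-1) ^ r * lad ({p | p.Prime} \ D) k)
      ((r + 1) * t r (st r)) : ℝ) ≤ t r (st r) := by
    intro r
    unfold bad
    have h1 : ((range ((r + 1) * t r (st r))).filter fun k =>
        (-1) ^ r * lad ({p | p.Prime} \ D) k ≤ 0) ⊆ range (t r (st r)) := by
      intro k hk
      rw [mem_filter, mem_range] at hk
      rw [mem_range]
      by_contra hcon
      have h2 : k ≤ (st (r + 1)).N := by
        rw [hst]
        have := hqt r (st r)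
        show k ≤ N' r (st r)
        omega
      rw [hlad r k h2] at hk
      have h3 := hpos r (st r) k (not_lt.1 hcon) hk.1.le
      have h4 := hk.2
      rw [hst] at h4
      simp only at h4
      omega
    have h2 := card_le_card h1
    rw [card_range] at h2
    exact_mod_cast h2
  have hfreq : ∀ (i : ℕ) (ε : ℝ), 0 < ε → ∃ᶠ n in atTop,
      (bad (fun k => (-1) ^ i * lad ({p | p.Prime} \ D) k) n : ℝ) ≤ ε * n := by
    intro i ε hε
    rw [frequently_atTop]
    intro n₀
    obtain ⟨j, hj⟩ := exists_nat_ge (1 / ε)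
    obtain ⟨r, hr⟩ : ∃ r, r = i + 2 * (n₀ + j) := ⟨_, rfl⟩
    have hsign : (-1 : ℤ) ^ r = (-1) ^ i := by
      rw [hr, pow_add, pow_mul]
      simp
    have h1 := hbad r
    rw [hsign] at h1
    refine ⟨(r + 1) * t r (st r), ?_, h1.trans ?_⟩
    · have h2 := haN r (st r)
      have h3 := hat r (st r)
      have h4 : r ≤ (st r).N := hmonoN.le_apply
      nlinarith
    · push_cast
      rw [← mul_assoc]
      have h2 : 1 ≤ ε * ((r : ℝ) + 1) := by
        rw [div_le_iff₀ hε] at hj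
        have h3 : (j : ℝ) ≤ r := by exact_mod_cast (by omega : j ≤ r)
        nlinarith
      have h3 : (0 : ℝ) ≤ t r (st r) := Nat.cast_nonneg _
      nlinarith
  refine ⟨D, ?_, fun n => ?_, unbalanced (fun ε hε => ?_) fun ε hε => ?_⟩
  · intro p hp
    rw [hD] at hp
    obtain ⟨r, hr⟩ := hp
    exact ((st r).h p hr).1
  · have h1 : cnt D n = cnt ((st n).D : Set ℕ) n := by
      unfold cnt
      congr 1
      ext x
      simp only [Set.mem_inter_iff, Set.mem_Iic, mem_coe]
      have h2 : n ≤ (st n).N := hmonoN.le_apply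
      constructor
      · rintro ⟨h3, h4⟩
        exact ⟨(hDr n x (by omega)).1 h3, h4⟩
      · rintro ⟨h3, h4⟩
        exact ⟨(hDr n x (by omega)).2 h3, h4⟩
    rw [h1]
    exact hcnt n n
  · have h1 := hfreq 0 ε hε
    simp only [pow_zero, one_mul] at h1
    exact h1
  · have h1 := hfreq 1 ε hε
    simp only [pow_one, neg_one_mul] at h1
    exact h1

end Pool.Agent.Results.MP_30d2b9_nt.SparseDeletion
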